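import Pool.Agent.W544.FF.Defs
import Pool.Agent.W216.TP.HCX

/-! Project FF (helper544), task HDC: complex forms in orthonormal coordinates. -/

open Matrix Finset Module

set_option autoImplicit false

namespace Pool.Agent.W494.FF

open Pool.Agent.W544.PG Pool.Agent.W544.FF
open Pool.Agent.W565.K3.Ext
open Pool.Agent.W216.TP (update_mk)

noncomputable section

variable {n s m r : ℕ}

/-- the extension of a form by the pattern `q`, restricted to the colours `a` -/
def Psi (c : Fin n → Fin r) (d : Fin s → Fin r) (a : Fin m → Fin r)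
    (q : Fin m → Option (Fin s)) :
    ((Fin (A q).card → Fin n) → ℂ) →ₗ[ℂ] ((Fin m → Fin s ⊕ Fin n) → ℂ) where
  toFun u := fun J => ∑ K, if mk q K = J ∧ (∀ j, Sum.elim d c (J j) = a j) then u K else 0
  map_add' := by
    intro t t'
    funext I
    simp only [Pi.add_apply]
    rw [← Finset.sum_add_distrib]
    refine Finset.sum_congr rfl fun K _ => ?_
    split_ifs <;> simp
  map_smul' := by
    intro c t
    funext I
    simp only [Pi.smul_apply, RingHom.id_apply, smul_eq_mul]
    rw [Finset.mul_sum]
    refine Finset.sum_congr rfl fun K _ => ?_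
    split_ifs <;> simp

theorem Psi_mk (c : Fin n → Fin r) (d : Fin s → Fin r) (a : Fin m → Fin r)
    (q : Fin m → Option (Fin s)) (u : (Fin (A q).card → Fin n) → ℂ)
    (K : Fin (A q).card → Fin n) (h : ∀ j, Sum.elim d c (mk q K j) = a j) :
    Psi c d a q u (mk q K) = u K := by
  change (∑ K', if mk q K' = mk q K ∧ (∀ j, Sum.elim d c (mk q K j) = a j) then u K' else 0) = u K
  rw [Finset.sum_eq_single K]
  · rw [if_pos ⟨rfl, h⟩]
  · intro K' _ hK'
    rw [if_neg (fun h => hK' (mk_inj h.1))]
  · intro h
    exact absurd (Finset.mem_univ _) h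

theorem Psi_zero (c : Fin n → Fin r) (d : Fin s → Fin r) (a : Fin m → Fin r)
    (q : Fin m → Option (Fin s)) (u : (Fin (A q).card → Fin n) → ℂ) (J : Fin m → Fin s ⊕ Fin n)
    (h : ¬ (pat J = q ∧ ∀ j, Sum.elim d c (J j) = a j)) : Psi c d a q u J = 0 := by
  change (∑ K', if mk q K' = J ∧ (∀ j, Sum.elim d c (J j) = a j) then u K' else 0) = 0
  refine Finset.sum_eq_zero fun K _ => ?_
  rw [if_neg]
  intro h1
  apply h
  refine ⟨?_, h1.2⟩
  rw [← h1.1, pat_mk]

theorem t_eqC (c : Fin n → Fin r) (d : Fin s → Fin r) (a : Fin m → Fin r)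
    (t : (Fin m → Fin s ⊕ Fin n) → ℂ) (ht : ∀ J, t J ≠ 0 → ∀ j, Sum.elim d c (J j) = a j) :
    t = ∑ q : Fin m → Option (Fin s), Psi c d a q (fun K => t (mk q K)) := by
  funext I
  rw [Finset.sum_apply, Finset.sum_eq_single (pat I)]
  · obtain ⟨K, hK⟩ := exists_mk I rfl
    by_cases hI : ∀ j, Sum.elim d c (I j) = a j
    · have h := Psi_mk c d a (pat I) (fun K => t (mk (pat I) K)) K (by rw [hK]; exact hI)
      rw [hK] at h
      exact h.symm
    · rw [Psi_zero c d a _ _ I (fun h => hI h.2)]
      by_contra hne
      exact hI (ht I hne)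
  · intro q _ hq
    exact Psi_zero c d a q _ I (fun h => hq h.1.symm)
  · intro h
    exact absurd (Finset.mem_univ _) h

/-- slices -/
theorem sliceC (Z : Matrix (Fin n) (Fin n) ℂ) (t : (Fin m → Fin s ⊕ Fin n) → ℂ)
    (h : act (fromBlocks 0 0 0 Z) t = 0) (q : Fin m → Option (Fin s)) :
    act Z (fun K => t (mk q K)) = 0 := by
  funext K
  have h1 := congrFun h (mk q K)
  unfold act at h1 ⊢
  rw [Pi.zero_apply, sum_split q, Finset.sum_eq_zero, zero_add] at h1
  · rw [Pi.zero_apply, ← h1]
    refine Finset.sum_congr rfl fun i _ => ?_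
    rw [Fintype.sum_sum_type, mk_ee]
    simp only [fromBlocks_apply₁₂, fromBlocks_apply₂₂, Matrix.zero_apply, zero_mul,
      Finset.sum_const_zero, zero_add]
    refine Finset.sum_congr rfl fun l _ => ?_
    rw [update_mk]
  · intro j hj
    rw [Finset.mem_filter] at hj
    obtain ⟨b, hb⟩ := Option.ne_none_iff_exists'.1 hj.2
    refine Finset.sum_eq_zero fun l _ => ?_
    rw [mk_some K hb]
    cases l with
    | inl l => simp
    | inr l => simp

/-- a non-vanishing determinant form -/
theorem dt_ne {Y : Type} [DecidableEq Y] (c : Fin n → Fin r) (S : Finset (Fin r))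
    (emb : Fin n → Y) {k : ℕ} (g : {b : Fin n // c b ∈ S} → Fin k) (J : Fin k → Y)
    (h : (dt c S emb g J : ℂ) ≠ 0) (x : {b : Fin n // c b ∈ S}) :
    ∃ y : Fin n, c y = c x.1 ∧ J (g x) = emb y := by
  by_contra hc
  push Not at hc
  apply h
  unfold dt
  apply Matrix.det_eq_zero_of_row_eq_zero x
  intro y
  rw [Matrix.of_apply, if_neg]
  intro h1
  exact hc y.1 h1.1 h1.2

theorem gen_memC (c : Fin n → Fin r) (d : Fin s → Fin r)
    (a : Fin m → Fin r) (q : Fin m → Option (Fin s))
    (σ : Fin (A q).card → Fin (A q).card) (f : Fin (A q).card → Fin r) (S : Finset (Fin r))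
    (g : {b : Fin n // c b ∈ S} → Fin (A q).card) (hok : OkS c σ S g) :
    Psi c d a q (genS ℂ c σ f S g) ∈ algD (1 : Matrix (Fin n) (Fin n) ℂ) c d a := by
  obtain ⟨h1, hgi, hfix⟩ := hok
  -- reduce to the compatible case
  by_cases hne : ∃ K : Fin (A q).card → Fin n, (∀ j, Sum.elim d c (mk q K j) = a j) ∧
      genS ℂ c σ f S g K ≠ 0
  swap
  · have h0 : Psi c d a q (genS ℂ c σ f S g) = 0 := by
      funext J
      rw [Pi.zero_apply]
      by_cases hJ : pat J = q ∧ ∀ j, Sum.elim d c (J j) = a j
      · obtain ⟨K, rfl⟩ := exists_mk J hJ.1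
        rw [Psi_mk c d a q _ K hJ.2]
        by_contra hc
        exact hne ⟨K, hJ.2, hc⟩
      · exact Psi_zero c d a q _ J hJ
    rw [h0]
    exact Submodule.zero_mem _
  obtain ⟨K₀, hK₀, hK₀n⟩ := hne
  have hK₀c : ∀ i, c (K₀ i) = a (ee q i) := by
    intro i
    have := hK₀ (ee q i)
    rw [mk_ee] at this
    exact this
  unfold genS genO at hK₀n
  have hn1 := left_ne_zero_of_mul (left_ne_zero_of_mul hK₀n)
  have hn2 := right_ne_zero_of_mul (left_ne_zero_of_mul hK₀n)
  have hn3 := right_ne_zero_of_mul hK₀n
  have hf0 : ∀ i, c (K₀ i) = f i := by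
    by_contra hc
    exact hn1 (if_neg hc)
  have hf : ∀ i, f i = a (ee q i) := fun i => by rw [← hf0, hK₀c]
  have hpr : ∀ i, i < σ i → K₀ i = K₀ (σ i) := by
    intro i hi
    by_contra hc
    apply hn2
    exact Finset.prod_eq_zero (Finset.mem_filter.2 ⟨Finset.mem_univ i, hi⟩) (if_neg hc)
  have hσ : ∀ i, a (ee q (σ i)) = a (ee q i) := by
    intro i
    rcases lt_trichotomy i (σ i) with h | h | h
    · rw [← hK₀c, ← hK₀c, hpr i h]
    · rw [← h]
    · have h2 := hpr (σ i) (by rw [h1]; exact h)
      rw [h1] at h2
      rw [← hK₀c, ← hK₀c, h2]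
  have hg : ∀ b, a (ee q (g b)) = c b.1 := by
    intro b
    obtain ⟨y, hy1, hy2⟩ := dt_ne c S id g K₀ hn3 b
    rw [← hK₀c, hy2, id_eq, hy1]
  have hB : ∀ j b, q j = some b → d b = a j := by
    intro j b hjb
    have := hK₀ j
    rw [mk_some K₀ hjb] at this
    exact this
  have hσg : ∀ b, σ (g b) = g b := fun b => (hfix _).2 ⟨b, rfl⟩
  -- the generator
  apply Submodule.subset_span
  refine ⟨sg q σ, fun j b => if q j = some b then 1 else 0, S, fun b => ee q (g b),
    ?_, ?_, ?_, ?_, ?_, ?_, ?_⟩
  · intro j
    cases hj : q j with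
    | none =>
      obtain ⟨i, rfl⟩ := exists_ee hj
      rw [sg_ee, sg_ee, h1]
    | some b =>
      have h := sg_some σ (j := j) (by rw [hj]; simp)
      rw [h, h]
  · intro j
    cases hj : q j with
    | none =>
      obtain ⟨i, rfl⟩ := exists_ee hj
      rw [sg_ee, hσ]
    | some b =>
      rw [sg_some σ (j := j) (by rw [hj]; simp)]
  · intro j b hb
    by_cases h : q j = some b
    · exact hB j b h
    · exact absurd (if_neg h) hb
  · intro b b' h
    exact hgi ((ee q).injective (Subtype.ext h))
  · intro b
    rw [sg_ee, hσg]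
  · intro b
    exact hg b
  · intro J
    by_cases hJ : pat J = q ∧ ∀ j, Sum.elim d c (J j) = a j
    · obtain ⟨K, rfl⟩ := exists_mk J hJ.1
      have hJc := hJ.2
      have hKc : ∀ i, c (K i) = a (ee q i) := by
        intro i
        have := hJc (ee q i)
        rw [mk_ee] at this
        exact this
      rw [Psi_mk c d a q _ K hJc]
      have p1 : ∏ j with sg q σ j = j ∧ ∀ b : {b : Fin n // c b ∈ S}, (ee q (g b) : Fin m) ≠ j,
          Sum.elim (fun b => if q j = some b then (1 : ℂ) else 0) (fun _ => 0) (mk q K j) = 1 := by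
        refine Finset.prod_eq_one fun j hj => ?_
        rw [Finset.mem_filter] at hj
        cases hq : q j with
        | none =>
          obtain ⟨i, rfl⟩ := exists_ee hq
          obtain ⟨_, h2, h3⟩ := hj
          rw [sg_ee] at h2
          have h4 : σ i = i := (ee q).injective (Subtype.ext h2)
          obtain ⟨b, hb⟩ := (hfix i).1 h4
          exact absurd (by rw [hb]) (h3 b)
        | some b =>
          rw [mk_some K hq]
          simp
      have p2 : ∏ j with j < sg q σ j, (if Sum.elim d c (mk q K j) = a j then
          fromBlocks 0 0 0 (1 : Matrix (Fin n) (Fin n) ℂ) (mk q K j) (mk q K (sg q σ j))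
            else 0) = ∏ i with i < σ i, if K i = K (σ i) then (1 : ℂ) else 0 := by
        symm
        refine Finset.prod_nbij (fun i => (ee q i : Fin m)) ?_ ?_ ?_ ?_
        · intro i hi
          rw [Finset.mem_filter] at hi ⊢
          refine ⟨Finset.mem_univ _, ?_⟩
          rw [sg_ee]
          exact (ee q).lt_iff_lt.2 hi.2
        · intro i _ i' _ h
          exact (ee q).injective (Subtype.ext h)
        · intro j hj
          rw [Finset.mem_coe, Finset.mem_filter] at hj
          cases hq : q j with
          | none =>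
            obtain ⟨i, rfl⟩ := exists_ee hq
            refine ⟨i, ?_, rfl⟩
            rw [Finset.mem_coe, Finset.mem_filter]
            refine ⟨Finset.mem_univ _, ?_⟩
            have := hj.2
            rw [sg_ee] at this
            exact (ee q).lt_iff_lt.1 this
          | some a =>
            have := hj.2
            rw [sg_some σ (by rw [hq]; simp)] at this
            exact absurd this (lt_irrefl _)
        · intro i _
          rw [if_pos (hJc _), sg_ee, mk_ee, mk_ee]
          rfl
      have p3 : (dt c S Sum.inr (fun b => (ee q (g b) : Fin m)) (mk q K) : ℂ) =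
          dt c S id g K := by
        unfold dt
        congr 1
        ext x y
        rw [Matrix.of_apply, Matrix.of_apply, mk_ee]
        have : (Sum.inr (K (g x)) : Fin s ⊕ Fin n) = Sum.inr y.1 ↔ K (g x) = id y.1 :=
          Sum.inr_injective.eq_iff
        simp only [this]
      rw [p1, p2, p3, one_mul]
      unfold genS genO
      rw [if_pos (fun j => by rw [hf, hKc]), one_mul]
    · rw [Psi_zero c d a q _ J hJ]
      symm
      by_contra hnz
      apply hJ
      have g1 := left_ne_zero_of_mul (left_ne_zero_of_mul hnz)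
      have g2 := right_ne_zero_of_mul (left_ne_zero_of_mul hnz)
      have g3 := right_ne_zero_of_mul hnz
      have k1 : ∀ j, (sg q σ j = j ∧ ∀ b : {b : Fin n // c b ∈ S}, (ee q (g b) : Fin m) ≠ j) →
          Sum.elim (fun b => if q j = some b then (1 : ℂ) else 0) (fun _ => 0) (J j) ≠ 0 := by
        intro j hj h0
        exact g1 (Finset.prod_eq_zero (Finset.mem_filter.2 ⟨Finset.mem_univ j, hj⟩) h0)
      have k2 : ∀ i, i < σ i → ∃ x, J (ee q i) = Sum.inr x ∧ J (ee q (σ i)) = Sum.inr x ∧
          c x = a (ee q i) := by
        intro i hi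
        by_contra hcon
        apply g2
        apply Finset.prod_eq_zero (i := (ee q i : Fin m))
        · rw [Finset.mem_filter, sg_ee]
          exact ⟨Finset.mem_univ _, (ee q).lt_iff_lt.2 hi⟩
        · rw [sg_ee]
          split_ifs with hcol
          · cases h2 : J (ee q i) with
            | inl b =>
              cases h3 : J (ee q (σ i)) with
              | inl b' => rfl
              | inr b' => rfl
            | inr x =>
              cases h3 : J (ee q (σ i)) with
              | inl b' => rfl
              | inr x' =>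
                rw [fromBlocks_apply₂₂]
                apply Matrix.one_apply_ne
                intro hxx
                apply hcon
                refine ⟨x, h2, by rw [h3, hxx], ?_⟩
                rw [h2] at hcol
                exact hcol
          · rfl
      have key : ∀ j, pat J j = q j ∧ Sum.elim d c (J j) = a j := by
        intro j
        cases hq : q j with
        | some b =>
          have h2 := k1 j ⟨sg_some σ (by rw [hq]; simp), fun b' h => by
            have h3 := q_ee (q := q) (g b')
            rw [h, hq] at h3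
            exact absurd h3 (by simp)⟩
          unfold pat
          cases hIj : J j with
          | inl b' =>
            rw [hIj] at h2
            simp only [Sum.elim_inl] at h2
            have h3 : q j = some b' := by
              by_contra hc
              exact h2 (if_neg hc)
            refine ⟨?_, hB j b' h3⟩
            simp only [Sum.elim_inl]
            rw [← h3, hq]
          | inr b' =>
            rw [hIj] at h2
            exact absurd rfl h2
        | none =>
          obtain ⟨i, rfl⟩ := exists_ee hq
          rcases lt_trichotomy i (σ i) with h | h | h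
          · obtain ⟨x, hx1, _, hx3⟩ := k2 i h
            unfold pat
            rw [hx1]
            exact ⟨rfl, hx3⟩
          · obtain ⟨b, hb⟩ := (hfix i).1 h.symm
            obtain ⟨y, hy1, hy2⟩ := dt_ne c S Sum.inr (fun b => (ee q (g b) : Fin m)) J g3 b
            simp only [hb] at hy2
            unfold pat
            rw [hy2]
            refine ⟨rfl, ?_⟩
            show c y = a (ee q i)
            rw [hy1, ← hg b, hb]
          · obtain ⟨x, _, hx2, hx3⟩ := k2 (σ i) (by rw [h1]; exact h)
            rw [h1] at hx2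
            unfold pat
            rw [hx2]
            refine ⟨rfl, ?_⟩
            show c x = a (ee q i)
            rw [hx3, hσ]
      exact ⟨funext fun j => (key j).1, fun j => (key j).2⟩

theorem hdc (hftc : S_ftc) : S_hdc := by
  intro n r s m c d a t ht hcol
  rw [t_eqC c d a t hcol]
  refine Submodule.sum_mem _ fun q _ => ?_
  have h1 := hftc n r (A q).card c (fun K => t (mk q K)) (fun Z hZ hZc =>
    sliceC Z t (ht Z hZ hZc) q)
  refine Submodule.span_induction (p := fun u _ => Psi c d a q u ∈
    algD (1 : Matrix (Fin n) (Fin n) ℂ) c d a) ?_ ?_ ?_ ?_ h1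
  · rintro u ⟨σ, f, S, g, h2, h3⟩
    rw [h3]
    exact gen_memC c d a q σ f S g h2
  · rw [map_zero]
    exact Submodule.zero_mem _
  · intro u u' _ _ h2 h3
    rw [map_add]
    exact Submodule.add_mem _ h2 h3
  · intro x u _ h2
    rw [map_smul]
    exact Submodule.smul_mem _ _ h2

end

end Pool.Agent.W494.FF
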